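import Pool.Agent.W5h47.JE.All
import Pool.Agent.W5h47.JE.Vdc
import Pool.Agent.W5h47.JE.Me
import Pool.Agent.W5h47.JE.Vc
import Pool.Agent.W5h47.JE.Sh1
import Pool.Agent.W5h47.JE.Sh

/-!
# MP_ce5406_an : joint ergodicity of `⌊n^{c_i}⌋²`, all exponents smaller than one

Q1 for every number `k` of functions and all distinct exponents `c_i` in `(0, 1)`; the
transformation need not be invertible.
-/

set_option autoImplicit false

open MeasureTheory Filter Topology

namespace Pool.Agent.Results.MP_ce5406_an.ExponentsBelowOne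

/-- For distinct exponents `0 < c i < 1` and every totally ergodic measure-preserving map `T` of a
probability space, the averages over `n ≤ N` of the products of `f i ∘ T^{⌊n^{c i}⌋²}` converge in
`L²` to the product of the integrals of the bounded functions `f i`. -/
theorem result (k : ℕ) (c : Fin k → ℝ) (hc : Function.Injective c) (h0 : ∀ i, 0 < c i)
    (h1 : ∀ i, c i < 1) (X : Type) [MeasurableSpace X] (μ : Measure X) [IsProbabilityMeasure μ]
    (T : X → X) (hT : MeasurePreserving T μ μ) (hTe : ∀ n : ℕ, 1 ≤ n → Ergodic (T^[n]) μ)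
    (f : Fin k → X → ℝ) (hf : ∀ i, MemLp (f i) ⊤ μ) :
    Tendsto (fun N : ℕ => ∫ x, ((1 / (N : ℝ)) * ∑ n ∈ Finset.Icc 1 N,
        ∏ i, f i (T^[⌊(n : ℝ) ^ (c i)⌋₊ ^ 2] x) - ∏ i, ∫ y, f i y ∂μ) ^ 2 ∂μ)
      atTop (𝓝 0) :=
  Pool.Agent.W5h47.JE.main
    (Pool.Agent.W5h47.JE.vc Pool.Agent.W5h47.JE.vdc Pool.Agent.W5h47.JE.me)
    (Pool.Agent.W5h47.JE.sh Pool.Agent.W5h47.JE.sh1) c hc h0 h1 T hT hTe f hf

end Pool.Agent.Results.MP_ce5406_an.ExponentsBelowOne
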